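import Mathlib
import Pool.Agent.V8H39.SR.Final

/-!
# All values of the tree function are taken equally often
-/

set_option autoImplicit false

open Finset

namespace Pool.Agent.V8H45.TE

open Pool.Agent.V8H39.SR

variable {D : ℕ} {F : Type} [Field F] [Fintype F] [DecidableEq F] [CharP F 2]

/-- a bit of the root that changes the value by `e` -/
theorem exists_flip (h : ℕ) (e : F) : ∃ v : Var D F h, ∀ x : Var D F h → Bool,
    val h (Function.update x v (!x v)) = val h x + e := by
  cases h with
  | zero => exact ⟨(e : F), fun x => blk_flip (F := F) (fun e : F => x e) e⟩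
  | succ h => exact ⟨vRoot e, fun x => val_flip x e⟩

theorem card_val (h : ℕ) (t e : F) :
    Nat.card {x : Var D F h → Bool // val h x = t} =
      Nat.card {x : Var D F h → Bool // val h x = t + e} := by
  classical
  obtain ⟨v, hv⟩ := exists_flip (D := D) h e
  have hinv : ∀ x : Var D F h → Bool, Function.update (Function.update x v (!x v)) v
      (!(Function.update x v (!x v)) v) = x := by
    intro x
    rw [Function.update_self, Bool.not_not, Function.update_idem, Function.update_eq_self]
  refine Nat.card_congr ⟨fun x => ⟨Function.update x.1 v (!x.1 v), by rw [hv, x.2]⟩,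
    fun x => ⟨Function.update x.1 v (!x.1 v), by
      rw [hv, x.2, add_assoc, CharTwo.add_self_eq_zero, add_zero]⟩, ?_, ?_⟩
  · rintro ⟨x, hx⟩
    exact Subtype.ext (hinv x)
  · rintro ⟨x, hx⟩
    exact Subtype.ext (hinv x)

/-- the number of inputs with a value in `T` -/
theorem card_mem (h : ℕ) (T : Finset F) :
    Nat.card {x : Var D F h → Bool // val h x ∈ T} * Fintype.card F =
      T.card * 2 ^ Fintype.card (Var D F h) := by
  classical
  obtain ⟨N, hN⟩ : ∃ N, N = Nat.card {x : Var D F h → Bool // val h x = 0} := ⟨_, rfl⟩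
  have hall : ∀ t : F, Nat.card {x : Var D F h → Bool // val h x = t} = N := by
    intro t
    have := card_val (D := D) h (0 : F) t
    rw [zero_add] at this
    rw [hN, this]
  have h1 : Fintype.card F * N = 2 ^ Fintype.card (Var D F h) := by
    have h3 := card_fiber (val (D := D) (F := F) h) (fun _ => True)
    simp only [true_and] at h3
    rw [Finset.sum_congr rfl fun t _ => hall t, sum_const, card_univ, smul_eq_mul] at h3
    rw [h3, ← Fintype.card_bool, ← Fintype.card_fun, ← Nat.card_eq_fintype_card]
    exact Nat.card_congr (Equiv.subtypeUnivEquiv fun _ => trivial)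
  have h2 : Nat.card {x : Var D F h → Bool // val h x ∈ T} = T.card * N := by
    have h3 := card_fiber (val (D := D) (F := F) h) (fun x => val h x ∈ T)
    rw [← h3, ← Finset.sum_filter_add_sum_filter_not univ (fun t => t ∈ T)]
    have h4 : ∑ t ∈ univ.filter (fun t => ¬ t ∈ T),
        Nat.card {x : Var D F h → Bool // val h x ∈ T ∧ val h x = t} = 0 := by
      refine Finset.sum_eq_zero fun t ht => ?_
      have : IsEmpty {x : Var D F h → Bool // val h x ∈ T ∧ val h x = t} :=
        ⟨fun x => (Finset.mem_filter.1 ht).2 (by rw [← x.2.2]; exact x.2.1)⟩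
      exact Nat.card_of_isEmpty
    have h5 : ∑ t ∈ univ.filter (fun t => t ∈ T),
        Nat.card {x : Var D F h → Bool // val h x ∈ T ∧ val h x = t} =
        ∑ _t ∈ univ.filter (fun t : F => t ∈ T), N := by
      refine Finset.sum_congr rfl fun t ht => ?_
      rw [← hall t]
      refine Nat.card_congr (Equiv.subtypeEquivRight fun x => ?_)
      constructor
      · exact fun hx => hx.2
      · exact fun hx => ⟨by rw [hx]; exact (Finset.mem_filter.1 ht).2, hx⟩
    rw [h4, add_zero, h5, sum_const, smul_eq_mul]
    congr 1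
    congr 1
    ext t
    simp
  rw [h2, mul_assoc, mul_comm N, h1]

/-- half of the inputs -/
theorem card_half (h n : ℕ) (e : Var D F h ↪ Fin n) (T : Finset F)
    (hT : 2 * T.card = Fintype.card F) :
    2 * Nat.card {x : Fin n → Bool // val h (fun v => x (e v)) ∈ T} = 2 ^ n := by
  classical
  have h1 := count_ext e (fun z : Fin n → Bool => val h (fun v => z (e v)) ∈ T)
  have h2 : ∀ y : Fin n → Bool,
      Nat.card {x : Var D F h → Bool // val h (fun v => comb e x y (e v)) ∈ T} =
      Nat.card {x : Var D F h → Bool // val h x ∈ T} := by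
    intro y
    refine Nat.card_congr (Equiv.subtypeEquivRight fun x => ?_)
    have : (fun v => comb e x y (e v)) = x := by
      funext v
      exact comb_in e _ _ v
    rw [this]
  rw [Finset.sum_congr rfl fun y _ => h2 y, sum_const, card_univ, Fintype.card_fun,
    Fintype.card_bool, Fintype.card_fin, smul_eq_mul] at h1
  have h3 := card_mem (D := D) h T
  obtain ⟨a, ha⟩ : ∃ a, a = Nat.card {x : Var D F h → Bool // val h x ∈ T} := ⟨_, rfl⟩
  obtain ⟨b, hb⟩ : ∃ b, b = Nat.card {x : Fin n → Bool // val h (fun v => x (e v)) ∈ T} :=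
    ⟨_, rfl⟩
  obtain ⟨N, hN⟩ : ∃ N, N = 2 ^ Fintype.card (Var D F h) := ⟨_, rfl⟩
  rw [← ha, ← hN] at h3
  rw [← ha, ← hb, ← hN] at h1
  rw [← hb]
  have hNpos : 0 < N := by
    rw [hN]
    positivity
  have hF : 0 < Fintype.card F := Fintype.card_pos
  have h4 : 2 * a = N := by
    refine Nat.eq_of_mul_eq_mul_right hF ?_
    calc 2 * a * Fintype.card F = 2 * (a * Fintype.card F) := by ring
      _ = 2 * (T.card * N) := by rw [h3]
      _ = (2 * T.card) * N := by ring
      _ = N * Fintype.card F := by rw [hT, mul_comm]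
  refine Nat.eq_of_mul_eq_mul_right hNpos ?_
  calc 2 * b * N = 2 * (b * N) := by ring
    _ = 2 * (2 ^ n * a) := by rw [h1]
    _ = 2 ^ n * (2 * a) := by ring
    _ = 2 ^ n * N := by rw [h4]

end Pool.Agent.V8H45.TE
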