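import Mathlib
import Pool.Agent.V8H45.TS.Avoid

/-!
# Inner products that are rarely in a set
-/

set_option autoImplicit false

open Finset

namespace Pool.Agent.V8H45.TE

open Pool.Agent.V8H45.TS (card_hyper)

variable {F : Type} [Field F] [Fintype F] [DecidableEq F]

/-- For sets `A` and `B` of vectors in which no vector has a large multiplicity: the number of pairs,
up to a small term, is at most a multiple of the number of pairs for which the inner product is in
`T`. -/
theorem avoidE {X Y : Type} {m M : ℕ} (A : Finset X) (B : Finset Y) (u : X → Fin m → F)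
    (w : Y → Fin m → F) (hA : ∀ z, (A.filter fun a => u a = z).card ≤ M)
    (hB : ∀ z, (B.filter fun b => w b = z).card ≤ M) (p : F) (T : Finset F) :
    A.card * B.card * T.card ≤ 4 * (M ^ 2 * Fintype.card F ^ (m + 2)) +
      2 * Fintype.card F *
        ((A ×ˢ B).filter fun r => p + ∑ l, u r.1 l * w r.2 l ∈ T).card := by
  classical
  rcases Nat.eq_zero_or_pos B.card with hB0 | hBpos
  · rw [hB0]
    simp
  obtain ⟨q, hq⟩ : ∃ q : ℝ, q = Fintype.card F := ⟨_, rfl⟩
  have hqpos : 0 < q := by
    rw [hq]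
    exact_mod_cast Fintype.card_pos
  obtain ⟨nB, hnB⟩ : ∃ nB : ℝ, nB = B.card := ⟨_, rfl⟩
  have hnBpos : 0 < nB := by
    rw [hnB]
    exact_mod_cast hBpos
  -- numbers of elements with a given inner product
  set N : (Fin m → F) → F → ℝ := fun z s => ((B.filter fun b => ∑ l, z l * w b l = s).card : ℝ)
    with hN
  set Q : (Fin m → F) → ℝ := fun z => ∑ s, N z s ^ 2 with hQ
  have hsum : ∀ z, ∑ s, N z s = nB := by
    intro z
    rw [hnB]
    simp only [hN]
    rw [← Nat.cast_sum]
    congr 1
    exact (Finset.card_eq_sum_card_fiberwise fun _ _ => mem_univ _).symm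
  have hQ0 : ∀ z, 0 ≤ Q z := fun z => Finset.sum_nonneg fun s _ => sq_nonneg _
  have hCS : ∀ z, nB ^ 2 ≤ q * Q z := by
    intro z
    have := sq_sum_le_card_mul_sum_sq (s := (univ : Finset F)) (f := N z)
    rw [hsum, Finset.card_univ, ← hq] at this
    exact this
  -- the pairs
  have hpair : ∀ z, Q z = (((B ×ˢ B).filter fun r => ∑ l, z l * w r.1 l = ∑ l, z l * w r.2 l).card :
      ℝ) := by
    intro z
    have h1 : ((B ×ˢ B).filter fun r => ∑ l, z l * w r.1 l = ∑ l, z l * w r.2 l).card =
        ∑ s : F, (B.filter fun b => ∑ l, z l * w b l = s).card ^ 2 := by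
      rw [Finset.card_eq_sum_card_fiberwise (f := fun r => ∑ l, z l * w r.1 l)
        (t := (univ : Finset F)) fun _ _ => mem_univ _]
      refine Finset.sum_congr rfl fun s _ => ?_
      rw [sq, ← Finset.card_product]
      congr 1
      ext r
      simp only [Finset.mem_filter, Finset.mem_product]
      constructor
      · rintro ⟨⟨⟨h1, h2⟩, h3⟩, h4⟩
        exact ⟨⟨h1, h4⟩, h2, by rw [← h3]; exact h4⟩
      · rintro ⟨⟨h1, h2⟩, h3, h4⟩
        exact ⟨⟨⟨h1, h3⟩, by rw [h2, h4]⟩, h2⟩
    rw [h1]
    push_cast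
    rfl
  -- the sum over all vectors
  have hqm : ∀ r : Y × Y, q * ((univ.filter fun z : Fin m → F => ∑ l, z l * w r.1 l =
      ∑ l, z l * w r.2 l).card : ℝ) ≤ q ^ m + (if w r.1 = w r.2 then q ^ (m + 1) else 0) := by
    intro r
    by_cases hr : w r.1 = w r.2
    · rw [if_pos hr]
      have h1 : (univ.filter fun z : Fin m → F => ∑ l, z l * w r.1 l = ∑ l, z l * w r.2 l) = univ := by
        rw [hr]
        simp
      rw [h1, Finset.card_univ, Fintype.card_fun, Fintype.card_fin]
      push_cast
      rw [← hq, pow_succ]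
      have : 0 < q ^ m := by positivity
      nlinarith
    · rw [if_neg hr, add_zero]
      have h1 : (univ.filter fun z : Fin m → F => ∑ l, z l * w r.1 l = ∑ l, z l * w r.2 l) =
          univ.filter fun z : Fin m → F => ∑ l, z l * (w r.1 - w r.2) l = 0 := by
        ext z
        simp only [Finset.mem_filter, Finset.mem_univ, true_and, Pi.sub_apply, mul_sub,
          Finset.sum_sub_distrib]
        exact sub_eq_zero.symm
      have h2 := card_hyper (w r.1 - w r.2) (sub_ne_zero.2 hr)
      rw [h1, hq]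
      have h3 : ((univ.filter fun z : Fin m → F => ∑ l, z l * (w r.1 - w r.2) l = 0).card : ℝ) *
          Fintype.card F = (Fintype.card F : ℝ) ^ m := by exact_mod_cast h2
      rw [mul_comm, h3]
  have hsame : (((B ×ˢ B).filter fun r => w r.1 = w r.2).card : ℝ) ≤ M * nB := by
    have h1 : ((B ×ˢ B).filter fun r => w r.1 = w r.2).card ≤ B.card * M := by
      rw [Finset.card_eq_sum_card_fiberwise (f := fun r => r.1) (t := B)
        fun r hr => (Finset.mem_product.1 (Finset.mem_filter.1 hr).1).1]
      refine le_trans (Finset.sum_le_card_nsmul _ _ M fun b hb => ?_) (by rw [smul_eq_mul])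
      refine le_trans (Finset.card_le_card_of_injOn (fun r => r.2) (t := B.filter fun b' => w b' = w b)
        ?_ ?_) (hB (w b))
      · intro r hr
        simp only [Finset.coe_filter, Finset.mem_filter, Finset.mem_product, Set.mem_ofPred_eq] at hr ⊢
        obtain ⟨⟨⟨h1, h2⟩, h3⟩, h4⟩ := hr
        exact ⟨h2, by rw [← h3, h4]⟩
      · intro r hr r' hr' hrr
        simp only [Finset.coe_filter, Finset.mem_filter, Set.mem_ofPred_eq] at hr hr'
        exact Prod.ext (hr.2.trans hr'.2.symm) hrr
    have h2 : (((B ×ˢ B).filter fun r => w r.1 = w r.2).card : ℝ) ≤ (B.card : ℝ) * M := by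
      exact_mod_cast h1
    rw [hnB]
    linarith
  have htot : ∑ z, (q * Q z - nB ^ 2) ≤ q ^ (m + 1) * (M * nB) := by
    have h1 : ∑ z, q * Q z ≤ q ^ m * nB ^ 2 + q ^ (m + 1) * (M * nB) := by
      have h2 : ∑ z, Q z = ∑ r ∈ B ×ˢ B, ((univ.filter fun z : Fin m → F => ∑ l, z l * w r.1 l =
          ∑ l, z l * w r.2 l).card : ℝ) := by
        simp only [hpair, Finset.card_filter, Nat.cast_sum]
        rw [Finset.sum_comm]
      rw [← Finset.mul_sum, h2, Finset.mul_sum]
      refine (Finset.sum_le_sum fun r _ => hqm r).trans ?_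
      rw [Finset.sum_add_distrib, Finset.sum_const, Finset.card_product, nsmul_eq_mul]
      refine add_le_add (le_of_eq ?_) ?_
      · push_cast
        rw [← hnB]
        ring
      · rw [← Finset.sum_filter, Finset.sum_const, nsmul_eq_mul, mul_comm]
        exact mul_le_mul_of_nonneg_left hsame (by positivity)
    have h3 : ∑ _z : Fin m → F, nB ^ 2 = q ^ m * nB ^ 2 := by
      rw [Finset.sum_const, Finset.card_univ, Fintype.card_fun, Fintype.card_fin, nsmul_eq_mul, hq]
      push_cast
      ring
    rw [Finset.sum_sub_distrib, h3]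
    linarith
  have hE0 : ∀ z, 0 ≤ q * Q z - nB ^ 2 := fun z => by linarith [hCS z]
  -- the vectors of `A`
  set W : X → ℝ := fun a => ((B.filter fun b => p + ∑ l, u a l * w b l ∈ T).card : ℝ) with hW
  have hW0 : ∀ a, 0 ≤ W a := fun a => by
    simp only [hW]
    positivity
  have hlow : ∀ a ∈ A, (T.card : ℝ) * nB ^ 2 ≤ 4 * q * (q * Q (u a) - nB ^ 2) +
      2 * q * nB * W a := by
    intro a _
    obtain ⟨t, ht⟩ : ∃ t : ℝ, t = T.card := ⟨_, rfl⟩
    have ht0 : 0 ≤ t := by
      rw [ht]
      positivity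
    rw [← ht]
    have hd := hE0 (u a)
    rcases le_or_gt (t * nB) (2 * q * W a) with hc | hc
    · have h1 : t * nB ^ 2 ≤ 2 * q * nB * W a := by
        calc t * nB ^ 2 = nB * (t * nB) := by ring
          _ ≤ nB * (2 * q * W a) := mul_le_mul_of_nonneg_left hc hnBpos.le
          _ = 2 * q * nB * W a := by ring
      have h2 : 0 ≤ 4 * q * (q * Q (u a) - nB ^ 2) := by positivity
      linarith
    · set T' : Finset F := T.image fun s => s - p with hT'
      have hcard : (T'.card : ℝ) = t := by
        rw [ht, hT']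
        exact_mod_cast Finset.card_image_of_injective _ fun s s' hss => by simpa using hss
      have hWa : W a = ∑ s ∈ T', N (u a) s := by
        simp only [hW, hN]
        rw [← Nat.cast_sum]
        congr 1
        rw [Finset.card_eq_sum_card_fiberwise (f := fun b => ∑ l, u a l * w b l) (t := T')]
        · refine Finset.sum_congr rfl fun s hs => ?_
          congr 1
          ext b
          simp only [Finset.mem_filter]
          constructor
          · rintro ⟨⟨h1, _⟩, h3⟩
            exact ⟨h1, h3⟩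
          · rintro ⟨h1, h3⟩
            refine ⟨⟨h1, ?_⟩, h3⟩
            obtain ⟨s', hs', rfl⟩ := Finset.mem_image.1 hs
            rw [h3]
            simpa using hs'
        · intro b hb
          have hb' := (Finset.mem_filter.1 hb).2
          exact Finset.mem_image.2 ⟨_, hb', by ring⟩
      have h1 : ∑ s ∈ T', (nB / q - N (u a) s) = t * nB / q - W a := by
        rw [Finset.sum_sub_distrib, Finset.sum_const, nsmul_eq_mul, hcard, ← hWa]
        ring
      have h2 := sq_sum_le_card_mul_sum_sq (s := T') (f := fun s => nB / q - N (u a) s)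
      rw [h1, hcard] at h2
      have h3 : ∑ s ∈ T', (nB / q - N (u a) s) ^ 2 ≤ ∑ s, (nB / q - N (u a) s) ^ 2 :=
        Finset.sum_le_sum_of_subset_of_nonneg (Finset.subset_univ _) fun _ _ _ => sq_nonneg _
      have h4 : ∑ s, (nB / q - N (u a) s) ^ 2 = Q (u a) - nB ^ 2 / q := by
        have h5 : ∀ s, (nB / q - N (u a) s) ^ 2 = nB ^ 2 / q ^ 2 - 2 * (nB / q) * N (u a) s +
            N (u a) s ^ 2 := fun s => by ring
        rw [Finset.sum_congr rfl fun s _ => h5 s, Finset.sum_add_distrib, Finset.sum_sub_distrib,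
          ← Finset.mul_sum, hsum, Finset.sum_const, Finset.card_univ, nsmul_eq_mul, ← hq]
        have h6 : ∑ s, N (u a) s ^ 2 = Q (u a) := rfl
        rw [h6]
        field_simp
        ring
      have h5 : (t * nB / q - W a) ^ 2 ≤ t * (Q (u a) - nB ^ 2 / q) := by
        refine h2.trans ?_
        rw [← h4]
        exact mul_le_mul_of_nonneg_left h3 ht0
      have h6 : t * nB / (2 * q) ≤ t * nB / q - W a := by
        have h7 : W a ≤ t * nB / (2 * q) := by
          rw [le_div_iff₀ (by positivity)]
          linarith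
        have h8 : t * nB / q = t * nB / (2 * q) + t * nB / (2 * q) := by
          field_simp
          ring
        linarith
      have h7 : (t * nB / (2 * q)) ^ 2 ≤ (t * nB / q - W a) ^ 2 :=
        pow_le_pow_left₀ (by positivity) h6 2
      have h8 : (t * nB / (2 * q)) ^ 2 ≤ t * (Q (u a) - nB ^ 2 / q) := h7.trans h5
      rcases ht0.eq_or_lt with h0 | hpos
      · rw [← h0, zero_mul]
        have := hW0 a
        positivity
      · have h9 : t * nB ^ 2 ≤ 4 * q * (q * Q (u a) - nB ^ 2) := by
          have h10 : (t * nB / (2 * q)) ^ 2 * (4 * q ^ 2 / t) ≤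
              t * (Q (u a) - nB ^ 2 / q) * (4 * q ^ 2 / t) :=
            mul_le_mul_of_nonneg_right h8 (by positivity)
          have h11 : (t * nB / (2 * q)) ^ 2 * (4 * q ^ 2 / t) = t * nB ^ 2 := by
            field_simp
            ring
          have h12 : t * (Q (u a) - nB ^ 2 / q) * (4 * q ^ 2 / t) =
              4 * q * (q * Q (u a) - nB ^ 2) := by
            field_simp
          rw [h11, h12] at h10
          exact h10
        have := hW0 a
        have h13 : 0 ≤ 2 * q * nB * W a := by positivity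
        linarith
  have hup : ∑ a ∈ A, (q * Q (u a) - nB ^ 2) ≤ M * (q ^ (m + 1) * (M * nB)) := by
    have h1 : ∑ a ∈ A, (q * Q (u a) - nB ^ 2) =
        ∑ z : Fin m → F, ∑ a ∈ A.filter fun a => u a = z, (q * Q (u a) - nB ^ 2) :=
      (Finset.sum_fiberwise_of_maps_to (fun _ _ => mem_univ _) _).symm
    rw [h1]
    calc ∑ z : Fin m → F, ∑ a ∈ A.filter fun a => u a = z, (q * Q (u a) - nB ^ 2)
        ≤ ∑ z : Fin m → F, M * (q * Q z - nB ^ 2) := by
          refine Finset.sum_le_sum fun z _ => ?_
          rw [Finset.sum_congr rfl (g := fun _ => q * Q z - nB ^ 2) fun a ha => by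
            rw [(Finset.mem_filter.1 ha).2], Finset.sum_const, nsmul_eq_mul]
          exact mul_le_mul_of_nonneg_right (by exact_mod_cast hA z) (hE0 z)
      _ = M * ∑ z : Fin m → F, (q * Q z - nB ^ 2) := by rw [Finset.mul_sum]
      _ ≤ _ := mul_le_mul_of_nonneg_left htot (by positivity)
  have hWsum : ∑ a ∈ A, W a =
      (((A ×ˢ B).filter fun r => p + ∑ l, u r.1 l * w r.2 l ∈ T).card : ℝ) := by
    simp only [hW]
    rw [← Nat.cast_sum]
    congr 1
    rw [Finset.card_filter, Finset.sum_product]
    refine Finset.sum_congr rfl fun a _ => ?_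
    rw [Finset.card_filter]
  obtain ⟨Wt, hWt⟩ : ∃ Wt : ℝ, Wt =
    (((A ×ˢ B).filter fun r => p + ∑ l, u r.1 l * w r.2 l ∈ T).card : ℝ) := ⟨_, rfl⟩
  rw [← hWt] at hWsum
  have hfin : (A.card : ℝ) * (T.card * nB ^ 2) ≤
      4 * q * (M * (q ^ (m + 1) * (M * nB))) + 2 * q * nB * Wt := by
    calc (A.card : ℝ) * (T.card * nB ^ 2) = ∑ _a ∈ A, (T.card : ℝ) * nB ^ 2 := by
          rw [Finset.sum_const, nsmul_eq_mul]
      _ ≤ ∑ a ∈ A, (4 * q * (q * Q (u a) - nB ^ 2) + 2 * q * nB * W a) :=
          Finset.sum_le_sum hlow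
      _ = 4 * q * ∑ a ∈ A, (q * Q (u a) - nB ^ 2) + 2 * q * nB * ∑ a ∈ A, W a := by
          rw [Finset.sum_add_distrib, Finset.mul_sum, Finset.mul_sum]
      _ ≤ 4 * q * (M * (q ^ (m + 1) * (M * nB))) + 2 * q * nB * Wt := by
          rw [hWsum]
          have := mul_le_mul_of_nonneg_left hup (show (0 : ℝ) ≤ 4 * q by positivity)
          linarith
  have hfin2 : (A.card : ℝ) * nB * T.card ≤ 4 * (M ^ 2 * q ^ (m + 2)) + 2 * q * Wt := by
    have h1 := mul_le_mul_of_nonneg_right hfin (show (0 : ℝ) ≤ 1 / nB by positivity)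
    have h2 : (A.card : ℝ) * (T.card * nB ^ 2) * (1 / nB) = A.card * nB * T.card := by
      field_simp
    have h3 : (4 * q * (M * (q ^ (m + 1) * (M * nB))) + 2 * q * nB * Wt) * (1 / nB) =
        4 * (M ^ 2 * q ^ (m + 2)) + 2 * q * Wt := by
      field_simp
      ring
    rw [h2, h3] at h1
    exact h1
  rw [hnB, hq, hWt] at hfin2
  exact_mod_cast hfin2

end Pool.Agent.V8H45.TE
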