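import Mathlib
import Pool.Agent.V8H39.SR.Lower
import Pool.Agent.V8H45.TE.AvoidE

/-!
# Programs that rarely accept inputs with values in a set
-/

set_option autoImplicit false

open Finset

namespace Pool.Agent.V8H45.TE

open Pool.Agent.V8H39.SR

/-- the bound for rectangles -/
theorem rect_avoidE {V : Type} [Fintype V] [DecidableEq V] {F : Type} [Field F] [Fintype F]
    [DecidableEq F] {K m : ℕ} {𝒜 ℬ RA RB : (V → Bool) → Prop}
    {u w : (V → Bool) → Fin m → F} (hu : Spread K m 𝒜 u) (hw : Spread K m ℬ w)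
    (hA : ∀ a, RA a → 𝒜 a) (hB : ∀ b, RB b → ℬ b) (p : F) (T : Finset F) :
    Nat.card {a // RA a} * Nat.card {b // RB b} * (T.card * K ^ (2 * m)) ≤
      4 * (4 ^ Fintype.card V * Fintype.card F ^ (m + 2)) +
      2 * Fintype.card F * K ^ (2 * m) * Nat.card {r : (V → Bool) × (V → Bool) //
        RA r.1 ∧ RB r.2 ∧ p + ∑ l, u r.1 l * w r.2 l ∈ T} := by
  classical
  rcases Nat.eq_zero_or_pos (K ^ m) with hK | hK
  · have : K ^ (2 * m) = 0 := by
      rw [mul_comm, pow_mul, hK]
      norm_num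
    rw [this, mul_zero, mul_zero]
    exact Nat.zero_le _
  have hfib : ∀ (P Q : (V → Bool) → Prop) (g : (V → Bool) → Fin m → F), Spread K m Q g →
      (∀ a, P a → Q a) → ∀ z, ((univ.filter P).filter fun a => g a = z).card ≤
        2 ^ Fintype.card V / K ^ m := by
    intro P Q g hg hPQ z
    rw [Nat.le_div_iff_mul_le hK]
    have h1 := hg ⊥ z
    rw [finrank_bot, pow_zero, mul_one] at h1
    refine (Nat.mul_le_mul_right _ ?_).trans h1
    rw [Finset.filter_filter, ← Fintype.card_subtype, ← Nat.card_eq_fintype_card]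
    refine card_mono fun a ha => ⟨hPQ a ha.1, ?_⟩
    rw [Submodule.mem_bot, ha.2, sub_self]
  have h1 := avoidE (univ.filter RA) (univ.filter RB) u w (hfib RA 𝒜 u hu hA)
    (hfib RB ℬ w hw hB) p T
  have e1 : (univ.filter RA).card = Nat.card {a // RA a} := by
    rw [Nat.card_eq_fintype_card, Fintype.card_subtype]
  have e2 : (univ.filter RB).card = Nat.card {b // RB b} := by
    rw [Nat.card_eq_fintype_card, Fintype.card_subtype]
  have e3 : (((univ.filter RA) ×ˢ (univ.filter RB)).filter fun r =>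
      p + ∑ l, u r.1 l * w r.2 l ∈ T).card = Nat.card {r : (V → Bool) × (V → Bool) //
        RA r.1 ∧ RB r.2 ∧ p + ∑ l, u r.1 l * w r.2 l ∈ T} := by
    rw [Nat.card_eq_fintype_card, Fintype.card_subtype]
    congr 1
    ext r
    simp only [Finset.mem_filter, Finset.mem_product, Finset.mem_univ, true_and, and_assoc]
  rw [e1, e2, e3] at h1
  obtain ⟨w', hw'⟩ : ∃ w', w' = Nat.card {r : (V → Bool) × (V → Bool) //
        RA r.1 ∧ RB r.2 ∧ p + ∑ l, u r.1 l * w r.2 l ∈ T} := ⟨_, rfl⟩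
  rw [← hw'] at h1 ⊢
  have h2 : (2 ^ Fintype.card V / K ^ m) ^ 2 * K ^ (2 * m) ≤ 4 ^ Fintype.card V := by
    calc (2 ^ Fintype.card V / K ^ m) ^ 2 * K ^ (2 * m)
        = (2 ^ Fintype.card V / K ^ m * K ^ m) ^ 2 := by
          rw [mul_comm 2 m, pow_mul, mul_pow]
      _ ≤ (2 ^ Fintype.card V) ^ 2 := Nat.pow_le_pow_left (Nat.div_mul_le_self _ _) 2
      _ = 4 ^ Fintype.card V := by
        rw [← pow_mul, mul_comm _ 2, pow_mul]
        norm_num
  calc Nat.card {a // RA a} * Nat.card {b // RB b} * (T.card * K ^ (2 * m))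
      = (Nat.card {a // RA a} * Nat.card {b // RB b} * T.card) * K ^ (2 * m) := by ring
    _ ≤ (4 * ((2 ^ Fintype.card V / K ^ m) ^ 2 * Fintype.card F ^ (m + 2)) +
          2 * Fintype.card F * w') * K ^ (2 * m) := Nat.mul_le_mul_right _ h1
    _ = 4 * (((2 ^ Fintype.card V / K ^ m) ^ 2 * K ^ (2 * m)) * Fintype.card F ^ (m + 2)) +
          2 * Fintype.card F * K ^ (2 * m) * w' := by ring
    _ ≤ 4 * (4 ^ Fintype.card V * Fintype.card F ^ (m + 2)) +
          2 * Fintype.card F * K ^ (2 * m) * w' := by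
        refine Nat.add_le_add_right (Nat.mul_le_mul_left _ (Nat.mul_le_mul_right _ h2)) _

/-- mixed inputs -/
theorem mix_count {V : Type} [Fintype V] [DecidableEq V] (A B : Finset V)
    (R : (V → Bool) → Prop) :
    ∑ x : V → Bool, Nat.card {r : (V → Bool) × (V → Bool) // R (mix A B x r.1 r.2)} =
      Nat.card {x // R x} * 4 ^ Fintype.card V := by
  classical
  have h0 : ∑ x : V → Bool, Nat.card {r : (V → Bool) × (V → Bool) // R (mix A B x r.1 r.2)} =
      Nat.card {p : (V → Bool) × (V → Bool) × (V → Bool) // R (mix A B p.1 p.2.1 p.2.2)} := by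
    rw [← Nat.card_sigma]
    exact Nat.card_congr ⟨fun p => ⟨(p.1, p.2.1), p.2.2⟩, fun p => ⟨p.1.1, p.1.2, p.2⟩,
      fun p => rfl, fun p => rfl⟩
  rw [h0]
  have h2 : Nat.card ((V → Bool) × (V → Bool)) = 4 ^ Fintype.card V := by
    rw [Nat.card_prod, card_fun_bool, ← mul_pow]
    norm_num
  rw [← h2, ← Nat.card_prod]
  refine Nat.card_congr ⟨fun p => (⟨(rot A B p.1).1, p.2⟩, (rot A B p.1).2),
    fun p => ⟨rot A B (p.1.1, p.2), ?_⟩, ?_, ?_⟩
  · have h3 := congrArg Prod.fst (rot_rot A B (p.1.1, p.2))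
    have h4 : mix A B (rot A B (p.1.1, p.2)).1 (rot A B (p.1.1, p.2)).2.1
        (rot A B (p.1.1, p.2)).2.2 = p.1.1 := h3
    rw [h4]
    exact p.1.2
  · rintro ⟨p, hp⟩
    apply Subtype.ext
    exact rot_rot A B p
  · rintro ⟨⟨x, hx⟩, p⟩
    have h3 := rot_rot A B (x, p)
    have h5 := congrArg Prod.fst h3
    have h6 := congrArg Prod.snd h3
    refine Prod.ext (Subtype.ext ?_) ?_
    · exact h5
    · exact h6

/-- **Rectangles.** -/
theorem count_boundE {V : Type} [Fintype V] [DecidableEq V] (c d e : ℕ) (A B : Finset V)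
    (R W : (V → Bool) → Prop)
    (hx : ∀ x : V → Bool, Nat.card {a // ∃ b, R (mix A B x a b)} *
      Nat.card {b // ∃ a, R (mix A B x a b)} * c ≤ 4 ^ Fintype.card V * d +
        e * Nat.card {r : (V → Bool) × (V → Bool) // W (mix A B x r.1 r.2)}) :
    Nat.card {x // R x} * c ≤ 2 ^ Fintype.card V * d + e * Nat.card {x // W x} := by
  classical
  have h2 : ∑ x : V → Bool, Nat.card {r : (V → Bool) × (V → Bool) // R (mix A B x r.1 r.2)} ≤
      ∑ x : V → Bool, Nat.card {a // ∃ b, R (mix A B x a b)} *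
        Nat.card {b // ∃ a, R (mix A B x a b)} := by
    refine sum_le_sum fun x _ => ?_
    rw [← Nat.card_prod]
    refine Nat.card_le_card_of_injective (fun p => (⟨p.1.1, p.1.2, p.2⟩, ⟨p.1.2, p.1.1, p.2⟩)) ?_
    rintro ⟨⟨a, b⟩, hp⟩ ⟨⟨a', b'⟩, hp'⟩ h
    have e1 := congrArg (fun z : {a // ∃ b, R (mix A B x a b)} ×
      {b // ∃ a, R (mix A B x a b)} => (z.1.1, z.2.1)) h
    exact Subtype.ext e1
  rw [mix_count] at h2
  have h4 : Nat.card {x // R x} * c * 4 ^ Fintype.card V ≤
      (2 ^ Fintype.card V * d + e * Nat.card {x // W x}) * 4 ^ Fintype.card V :=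
    calc Nat.card {x // R x} * c * 4 ^ Fintype.card V
        = (Nat.card {x // R x} * 4 ^ Fintype.card V) * c := by ring
      _ ≤ (∑ x : V → Bool, Nat.card {a // ∃ b, R (mix A B x a b)} *
        Nat.card {b // ∃ a, R (mix A B x a b)}) * c := Nat.mul_le_mul_right _ h2
      _ = ∑ x : V → Bool, Nat.card {a // ∃ b, R (mix A B x a b)} *
        Nat.card {b // ∃ a, R (mix A B x a b)} * c := sum_mul _ _ _
      _ ≤ ∑ x : V → Bool, (4 ^ Fintype.card V * d +
            e * Nat.card {r : (V → Bool) × (V → Bool) // W (mix A B x r.1 r.2)}) :=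
          sum_le_sum fun x _ => hx x
      _ = (2 ^ Fintype.card V * d + e * Nat.card {x // W x}) * 4 ^ Fintype.card V := by
          rw [sum_add_distrib, sum_const, card_univ, smul_eq_mul, ← mul_sum, mix_count,
            ← Nat.card_eq_fintype_card, card_fun_bool]
          ring
  exact Nat.le_of_mul_le_mul_right h4 (by positivity)

variable {D : ℕ} {F : Type} [Field F] [Fintype F] [DecidableEq F] [CharP F 2]

/-- **The lower bound.** -/
theorem lower_varE {h k m r : ℕ} (hD : D = DD (8 * k)) (hr : 1 ≤ r) (hm : 1 ≤ m)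
    (hh : 2 ^ (8 * k * (8 * k)) * (2 * m) * 2 + 1 ≤ h)
    (hq : 2 * (r * GG (8 * k) ^ h) ≤ Fintype.card F) (P : Mach (Var D F h)) (hs : P.Storeless)
    (κ : Var D F h → ℕ) (hκ : ∑ v, κ v ≤ k * Fintype.card (Var D F h))
    (hp : ∀ L, P.Path L true → ∀ v, L.count v ≤ κ v) (U : Finset F) :
    Nat.card {x // P.Answers x true ∧ Nice h x} * (U.card * r ^ (2 * m)) ≤
      (2 * Fintype.card P.Conf ^ 2) ^ (2 * (8 * k) + 1) *
        (2 ^ Fintype.card (Var D F h) * (4 * Fintype.card F ^ (m + 2)) +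
          2 * Fintype.card F * r ^ (2 * m) *
            Nat.card {x // P.Answers x true ∧ val h x ∈ U}) := by
  classical
  have hD2 : 2 ≤ D := by
    have h1 := GG_ge (8 * k)
    have h2 : 1 ≤ NN (8 * k) := Nat.succ_pos _
    rw [hD]
    unfold DD
    nlinarith
  have hS := wt_of_sum (ι := F) hD2 h k κ hκ
  obtain ⟨T, hT, Via, XA, XB, hcard, hmix, hex⟩ := prog' P hs (8 * k) (fun v => κ v ≤ 8 * k)
    (fun L hL v hv => (hp L hL v).trans hv)
  -- the set of inputs with a given trace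
  obtain ⟨R, hR⟩ : ∃ R : T → (Var D F h → Bool) → Prop, ∀ τ x, R τ x ↔
      (P.Answers x true ∧ Nice h x) ∧ Via τ x ∧ ∃ A B : Finset (Var D F h), Ch r h (2 * m) A B ∧
        (∀ a ∈ A, XA τ a) ∧ (∀ b ∈ B, XB τ b) := ⟨_, fun _ _ => Iff.rfl⟩
  have hcover : ∀ x, P.Answers x true ∧ Nice h x → ∃ τ, R τ x := by
    intro x hx
    obtain ⟨tm, htm⟩ := hex x hx.1
    obtain ⟨A, B, hc, hA, hB, hsep⟩ := exists_chain' (8 * k) m r h hr hD hh hq hS tm
    obtain ⟨τ, hv, h2, h3⟩ := htm A B (hc.nonempty hr (by omega)) hA hB hsep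
    exact ⟨τ, (hR τ x).2 ⟨hx, hv, A, B, hc, h2, h3⟩⟩
  have hone : ∀ τ, Nat.card {x // R τ x} * (U.card * r ^ (2 * m)) ≤
      2 ^ Fintype.card (Var D F h) * (4 * Fintype.card F ^ (m + 2)) +
        2 * Fintype.card F * r ^ (2 * m) * Nat.card {x // P.Answers x true ∧ val h x ∈ U} := by
    intro τ
    by_cases hne : ∃ x, R τ x
    · obtain ⟨x₀, hx₀⟩ := hne
      obtain ⟨-, -, A, B, hc, hA, hB⟩ := (hR τ x₀).1 hx₀
      refine count_boundE _ _ _ A B (R τ) (fun x => P.Answers x true ∧ val h x ∈ U) fun x => ?_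
      obtain ⟨p, u, w, h1, h2, h3⟩ := rep hr hc x
      have h4 := rect_avoidE (RA := fun a => ∃ b, R τ (mix A B x a b))
        (RB := fun b => ∃ a, R τ (mix A B x a b)) h2 h3 (by
          rintro a ⟨b, hb⟩
          exact ⟨b, ((hR τ _).1 hb).1.2⟩) (by
          rintro b ⟨a, ha⟩
          exact ⟨a, ((hR τ _).1 ha).1.2⟩) p U
      have h5 : Nat.card {r : (Var D F h → Bool) × (Var D F h → Bool) //
          (∃ b, R τ (mix A B x r.1 b)) ∧ (∃ a, R τ (mix A B x a r.2)) ∧
            p + ∑ l, u r.1 l * w r.2 l ∈ U} ≤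
          Nat.card {r : (Var D F h → Bool) × (Var D F h → Bool) //
            P.Answers (mix A B x r.1 r.2) true ∧ val h (mix A B x r.1 r.2) ∈ U} := by
        refine Nat.card_le_card_of_injective (fun s => ⟨s.1, ?_⟩) fun s s' hss => ?_
        · obtain ⟨⟨b', hb'⟩, ⟨a', ha'⟩, hU⟩ := s.2
          rw [← h1] at hU
          refine ⟨hmix τ _ _ _ ((hR τ _).1 hb').2.1 ((hR τ _).1 ha').2.1 ?_ ?_ ?_, hU⟩
          · intro v
            unfold mix
            by_cases hv : v ∈ A
            · left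
              rw [if_pos hv, if_pos hv]
            · right
              rw [if_neg hv, if_neg hv]
          · intro v hv
            have hv' : v ∉ B := fun hvB => hv (hB v hvB)
            unfold mix
            by_cases hvA : v ∈ A
            · rw [if_pos hvA, if_pos hvA]
            · rw [if_neg hvA, if_neg hvA, if_neg hv', if_neg hv']
          · intro v hv
            have hvA : v ∉ A := fun hvA => hv (hA v hvA)
            unfold mix
            rw [if_neg hvA, if_neg hvA]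
        · have h6 := congrArg (fun z : {r : (Var D F h → Bool) × (Var D F h → Bool) //
            P.Answers (mix A B x r.1 r.2) true ∧ val h (mix A B x r.1 r.2) ∈ U} => z.1) hss
          exact Subtype.ext h6
      refine h4.trans ?_
      have h6 : 4 * (4 ^ Fintype.card (Var D F h) * Fintype.card F ^ (m + 2)) =
          4 ^ Fintype.card (Var D F h) * (4 * Fintype.card F ^ (m + 2)) := by ring
      rw [h6]
      exact Nat.add_le_add_left (Nat.mul_le_mul_left _ h5) _
    · have : IsEmpty {x // R τ x} := ⟨fun x => hne ⟨x.1, x.2⟩⟩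
      rw [Nat.card_of_isEmpty, zero_mul]
      exact Nat.zero_le _
  have hsum : Nat.card {x // P.Answers x true ∧ Nice h x} ≤ ∑ τ, Nat.card {x // R τ x} := by
    rw [← Nat.card_sigma]
    choose g hg using hcover
    exact Nat.card_le_card_of_injective (fun x => (⟨g x.1 x.2, x.1, hg x.1 x.2⟩ :
      Σ τ, {x // R τ x})) fun x y hxy => by
        apply Subtype.ext
        have h2 := congrArg (fun z : (Σ τ, {x // R τ x}) => z.2.1) hxy
        exact h2
  obtain ⟨Z, hZ⟩ : ∃ Z, Z = 2 ^ Fintype.card (Var D F h) * (4 * Fintype.card F ^ (m + 2)) +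
        2 * Fintype.card F * r ^ (2 * m) * Nat.card {x // P.Answers x true ∧ val h x ∈ U} :=
    ⟨_, rfl⟩
  rw [← hZ] at hone ⊢
  calc Nat.card {x // P.Answers x true ∧ Nice h x} * (U.card * r ^ (2 * m))
      ≤ (∑ τ, Nat.card {x // R τ x}) * (U.card * r ^ (2 * m)) := Nat.mul_le_mul_right _ hsum
    _ = ∑ τ, Nat.card {x // R τ x} * (U.card * r ^ (2 * m)) := sum_mul _ _ _
    _ ≤ ∑ _τ : T, Z := sum_le_sum fun τ _ => hone τ
    _ = Fintype.card T * Z := by
        rw [sum_const, card_univ, smul_eq_mul]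
    _ ≤ _ := Nat.mul_le_mul_right _ hcard

end Pool.Agent.V8H45.TE
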