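import Mathlib
import Pool.Agent.V8H39.SR.BP
import Pool.Agent.V8H39.SR.Main
import Pool.Agent.V8H45.TE.FinalE
import Pool.Agent.V8H45.TS.Pat

/-!
# The separation, with few errors, for branching programs and a deterministic context-free language
-/

set_option autoImplicit false

open Finset

namespace Pool.Agent.V8H45.TE

open Pool.Agent.V8H39.SR Pool.Agent.V8H47.MH Pool.Agent.V8H45.TS

/-- machines and branching programs -/
theorem nbp_boundE {k E K n : ℕ} (hn : 3 ≤ n) {L : (Fin n → Bool) → Prop}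
    (hL : HardE k (E + 3) K n L)
    (B : NBP (Fin n)) (hB : Fintype.card B.Node ≤ n ^ E)
    (hκ : ∃ κ : Fin n → ℕ, ∑ v, κ v ≤ k * n ∧ ∀ l, B.Path l → ∀ v, l.count v ≤ κ v) :
    2 ^ E * Nat.card {x // B.Accepts x} ≤ 2 ^ n + K * Nat.card {x // B.Accepts x ∧ ¬ L x} := by
  classical
  obtain ⟨κ, h2, h3⟩ := hκ
  have h4 := hL B.mach B.mach_storeless
    ⟨κ, h2, fun l hl => h3 l (B.mach_path l hl)⟩ (by
      rw [B.card_mach, Fintype.card_fin]
      have h5 : 1 ≤ n ^ E := Nat.one_le_pow _ _ (by omega)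
      have h6 : 3 + n * 4 ≤ n ^ 3 := by
        have h7 : 9 ≤ n ^ 2 := by
          calc 9 = 3 ^ 2 := by norm_num
            _ ≤ n ^ 2 := Nat.pow_le_pow_left (by omega) 2
        calc 3 + n * 4 ≤ n * 9 := by omega
          _ ≤ n * n ^ 2 := Nat.mul_le_mul_left _ h7
          _ = n ^ 3 := by ring
      calc 2 + (Fintype.card B.Node + Fintype.card B.Node * (n * 4)) ≤
            2 * n ^ E + (n ^ E + n ^ E * (n * 4)) := by
            have := Nat.mul_le_mul_right (n * 4) hB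
            omega
        _ = n ^ E * (3 + n * 4) := by ring
        _ ≤ n ^ E * n ^ 3 := Nat.mul_le_mul_left _ h6
        _ = n ^ (E + 3) := (pow_add _ _ _).symm)
  have h5 : Nat.card {x // B.mach.Answers x true} = Nat.card {x // B.Accepts x} :=
    Nat.card_congr (Equiv.subtypeEquivRight fun x => B.mach_answers x)
  have h6 : Nat.card {x // B.mach.Answers x true ∧ ¬ L x} = Nat.card {x // B.Accepts x ∧ ¬ L x} :=
    Nat.card_congr (Equiv.subtypeEquivRight fun x => by rw [B.mach_answers x])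
  rw [h5, h6] at h4
  exact (Nat.mul_le_mul_right _ (Nat.pow_le_pow_right (by norm_num) (by omega))).trans h4

theorem KK_le {k E n C : ℕ} (hn : 2 ≤ n) (hC : 6 + 7 * (2 * (8 * (2 * k)) + 1) ≤ C) :
    KK k (E + 3) n ≤ n ^ (C * (E + 1)) := by
  obtain ⟨c, hc⟩ : ∃ c, c = 2 * (8 * (2 * k)) + 1 := ⟨_, rfl⟩
  unfold KK
  rw [← hc] at hC ⊢
  calc 8 * 2 ^ (E + 3) * (2 * (n ^ (E + 3)) ^ 2) ^ c
      = 2 ^ (E + 6 + c) * n ^ (2 * (E + 3) * c) := by
        rw [mul_pow, ← pow_mul, ← pow_mul]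
        have e1 : (8 : ℕ) = 2 ^ 3 := by norm_num
        rw [e1, ← pow_add]
        have e2 : (E + 3) * (2 * c) = 2 * (E + 3) * c := by ring
        rw [← mul_assoc, ← pow_add, e2]
        have e3 : 3 + (E + 3) + c = E + 6 + c := by omega
        rw [e3]
    _ ≤ n ^ (E + 6 + c) * n ^ (2 * (E + 3) * c) :=
        Nat.mul_le_mul_right _ (Nat.pow_le_pow_left hn _)
    _ = n ^ (E + 6 + c + 2 * (E + 3) * c) := (pow_add _ _ _).symm
    _ ≤ n ^ (C * (E + 1)) := by
        refine Nat.pow_le_pow_right (by omega) ?_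
        calc E + 6 + c + 2 * (E + 3) * c ≤ (6 + 7 * c) * (E + 1) := by nlinarith
          _ ≤ C * (E + 1) := Nat.mul_le_mul_right _ hC

theorem mainE : ∃ U ∈ oneDPDA Sy, ∀ k, ∃ (C : ℕ) (p : ∀ n, List (Sy ⊕ Fin n)),
    (∀ n, (p n).length ≤ (n + 2) ^ 5 ∧ (p n).filterMap Sum.getRight? = List.finRange n) ∧
    ∀ n E, C * (E + 1) ≤ Nat.log 2 n →
      2 * Nat.card {x : Fin n → Bool // fillBits (p n) x ∈ U} = 2 ^ n ∧
      ∀ (c : Bool) (B : NBP (Fin n)), Fintype.card B.Node ≤ n ^ E →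
        (∃ κ : Fin n → ℕ, ∑ v, κ v ≤ k * n ∧ ∀ L, B.Path L → ∀ v, L.count v ≤ κ v) →
        2 ^ E * Nat.card {x // B.Accepts x} ≤ 2 ^ n +
          n ^ (C * (E + 1)) * Nat.card {x // B.Accepts x ∧ ¬ (fillBits (p n) x ∈ U ↔ c = true)} := by
  classical
  refine ⟨Ev.lang, Ev_mem, fun k => ?_⟩
  obtain ⟨C, L, hC, hL, hhard⟩ := separationE (fun n L => ∃ p : List (Sy ⊕ Fin n),
    p.length ≤ (n + 2) ^ 5 ∧ p.filterMap Sum.getRight? = List.finRange n ∧
      ∀ x, fillBits p x ∈ Ev.lang ↔ L x) (fun n => by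
    obtain ⟨p, h1, h2, h3⟩ := dcfl_true n
    exact ⟨fun _ => True, p, h1, h2, fun x => iff_of_true (h3 x) trivial⟩)
    (fun D h n F _ _ _ hn => dcfl_patternT F D h n hn) k
  choose p hp using hL
  obtain ⟨C', hC'⟩ : ∃ C', C' = C + (6 + 7 * (2 * (8 * (2 * k)) + 1)) := ⟨_, rfl⟩
  refine ⟨C', p, fun n => ⟨(hp n).1, (hp n).2.1⟩, fun n E hE => ?_⟩
  have hE' : C * (E + 1) ≤ Nat.log 2 n := (Nat.mul_le_mul_right _ (by omega)).trans hE
  have hn : 3 ≤ n := by
    have h1 : 3 * 1 ≤ C * (E + 1) := Nat.mul_le_mul hC (by omega)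
    have h2 : Nat.log 2 n ≤ n := Nat.log_le_self 2 n
    omega
  have h1 := hhard n E hE'
  have hK : KK k (E + 3) n ≤ n ^ (C' * (E + 1)) := KK_le (by omega) (by omega)
  refine ⟨?_, fun c B hB hκ => ?_⟩
  · rw [← h1.1]
    congr 1
    exact Nat.card_congr (Equiv.subtypeEquivRight fun x => (hp n).2.2 x)
  cases c with
  | true =>
    refine (nbp_boundE hn h1.2.1 B hB hκ).trans (Nat.add_le_add_left ?_ _)
    have h2 : Nat.card {x // B.Accepts x ∧ ¬ L n x} =
        Nat.card {x // B.Accepts x ∧ ¬ (fillBits (p n) x ∈ Ev.lang ↔ true = true)} := by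
      refine Nat.card_congr (Equiv.subtypeEquivRight fun x => ?_)
      rw [← (hp n).2.2 x]
      simp
    rw [h2]
    exact Nat.mul_le_mul_right _ hK
  | false =>
    refine (nbp_boundE hn h1.2.2 B hB hκ).trans (Nat.add_le_add_left ?_ _)
    have h2 : Nat.card {x // B.Accepts x ∧ ¬ ¬ L n x} =
        Nat.card {x // B.Accepts x ∧ ¬ (fillBits (p n) x ∈ Ev.lang ↔ false = true)} := by
      refine Nat.card_congr (Equiv.subtypeEquivRight fun x => ?_)
      rw [← (hp n).2.2 x]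
      simp
    rw [h2]
    exact Nat.mul_le_mul_right _ hK

end Pool.Agent.V8H45.TE
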